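import Pool.Agent.H83.T1.IPV

/-!
# T1, module LDS: local data, change of the basis and addition of a unimodular form
-/

set_option autoImplicit false

namespace Pool.T1

open Polynomial Matrix Pool.HYP Pool.TOW Pool.AVS IsDedekindDomain

namespace LDSaux

/-- The inverse of a matrix invertible over a valuation ring. -/
private theorem inv_mem {L : Type} [Field L] (O : ValuationSubring L) {κ : Type} [Fintype κ]
    [DecidableEq κ] (M : Matrix κ κ L) (hM : GInI (O : Set L) M) (y : κ → L)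
    (hy : ∀ i, (M *ᵥ y) i ∈ O) (i : κ) : y i ∈ O := by
  obtain ⟨h1, h2, -, h4⟩ := hM
  obtain ⟨M0, hM0⟩ : ∃ M0 : Matrix κ κ O, M = M0.map (algebraMap O L) :=
    ⟨Matrix.of fun i j => ⟨M i j, h1 i j⟩, by ext i j; rfl⟩
  have hu : IsUnit M.det := h2.isUnit
  have e1 : y = M.det⁻¹ • (M.adjugate *ᵥ (M *ᵥ y)) := by
    rw [Matrix.mulVec_mulVec, Matrix.adjugate_mul, Matrix.smul_mulVec, Matrix.one_mulVec,
      smul_smul, inv_mul_cancel₀ h2, one_smul]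
  rw [e1]
  have e2 : M.adjugate = M0.adjugate.map (algebraMap O L) := by
    rw [hM0]
    exact (RingHom.map_adjugate (algebraMap O L) M0).symm
  show M.det⁻¹ * (M.adjugate *ᵥ (M *ᵥ y)) i ∈ O
  refine O.mul_mem _ _ h4 ?_
  rw [e2]
  show ∑ j, (M0.adjugate i j : L) * (M *ᵥ y) j ∈ O
  exact O.toSubring.sum_mem fun j _ => O.mul_mem _ _ (M0.adjugate i j).2 (hy j)

/-- The pairing in the new basis. -/
private theorem dot_basis {L : Type} [Field L] {ι : Type} [Fintype ι] (G h : Matrix ι ι L)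
    (x y : ι → L) : (h *ᵥ x) ⬝ᵥ (G *ᵥ (h *ᵥ y)) = x ⬝ᵥ ((hᵀ * G * h) *ᵥ y) := by
  rw [← Matrix.mulVec_mulVec, ← Matrix.mulVec_mulVec, Matrix.dotProduct_mulVec x hᵀ,
    Matrix.vecMul_transpose]

end LDSaux

open LDSaux in
/-- LDS. -/
theorem lds : LDSStmt := by
  intro F _ P hP1 hP2 ι κ _ _ _ _ G h G' h' m δ hh hL hh' hG'
  obtain ⟨O, hO, -, -⟩ := (ipv F).1 P hP1 hP2
  obtain ⟨ρ, g, τ, _, _, u, hρ, hg, hc, hM, hu, hx, hδ⟩ := hL
  have h0 : (0 : RatFunc F) ∈ IP P := by rw [← hO]; exact O.zero_mem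
  have hρ0 : ρ 0 = 0 := hρ.zero 0 h0
  -- the new data
  refine ⟨ρ, Matrix.fromBlocks (h * g) 0 0 h', τ, inferInstance, inferInstance,
    fun e => Sum.elim (h *ᵥ u e) 0, hρ, ?_, hc, ?_, ?_, ?_, ?_⟩
  · rw [Matrix.det_fromBlocks_zero₂₁, Matrix.det_mul]
    exact mul_ne_zero (mul_ne_zero hh hg) hh'
  · have e : (Matrix.fromBlocks (h * g) 0 0 h')ᵀ * Matrix.fromBlocks G 0 0 G' *
        Matrix.fromBlocks (h * g) 0 0 h' =
        Matrix.fromBlocks (gᵀ * (hᵀ * G * h) * g) 0 0 (h'ᵀ * G' * h') := by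
      rw [Matrix.fromBlocks_transpose, Matrix.fromBlocks_multiply, Matrix.fromBlocks_multiply]
      simp only [Matrix.transpose_zero, Matrix.zero_mul, Matrix.mul_zero, add_zero, zero_add,
        Matrix.transpose_mul, Matrix.mul_assoc]
    rw [e]
    rintro (i | i) (j | j)
    · exact hM i j
    · exact h0
    · exact h0
    · exact hG'.1 i j
  · intro e i
    have e1 : Matrix.fromBlocks G 0 0 G' *ᵥ Sum.elim (h *ᵥ u e) 0 =
        Sum.elim (G *ᵥ (h *ᵥ u e)) 0 := by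
      rw [Matrix.fromBlocks_mulVec]
      simp
    have e2 : (Matrix.fromBlocks (h * g) 0 0 h')ᵀ *ᵥ Sum.elim (G *ᵥ (h *ᵥ u e)) 0 =
        Sum.elim (gᵀ *ᵥ ((hᵀ * G * h) *ᵥ u e)) 0 := by
      rw [Matrix.fromBlocks_transpose, Matrix.fromBlocks_mulVec]
      simp [Matrix.transpose_mul, Matrix.mulVec_mulVec, Matrix.mul_assoc]
    rw [e1, e2]
    rcases i with i | i
    · exact hu e i
    · exact h0
  · intro x hx1 hx2
    obtain ⟨x1, x2, rfl⟩ : ∃ (x1 : ι → RatFunc F) (x2 : κ → RatFunc F), x = Sum.elim x1 x2 :=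
      ⟨x ∘ Sum.inl, x ∘ Sum.inr, (Sum.elim_comp_inl_inr x).symm⟩
    have hhu : IsUnit h.det := hh.isUnit
    obtain ⟨y, hy⟩ : ∃ y, x1 = h *ᵥ y :=
      ⟨h⁻¹ *ᵥ x1, by rw [Matrix.mulVec_mulVec, Matrix.mul_nonsing_inv _ hhu, Matrix.one_mulVec]⟩
    obtain ⟨z, hz⟩ : ∃ z, x2 = h' *ᵥ z :=
      ⟨h'⁻¹ *ᵥ x2, by
        rw [Matrix.mulVec_mulVec, Matrix.mul_nonsing_inv _ hh'.isUnit, Matrix.one_mulVec]⟩
    subst hy hz
    have e1 : Matrix.fromBlocks G 0 0 G' *ᵥ Sum.elim (h *ᵥ y) (h' *ᵥ z) =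
        Sum.elim (G *ᵥ (h *ᵥ y)) (G' *ᵥ (h' *ᵥ z)) := by
      rw [Matrix.fromBlocks_mulVec]
      simp
    have e2 : (Matrix.fromBlocks (h * g) 0 0 h')ᵀ *ᵥ
        Sum.elim (G *ᵥ (h *ᵥ y)) (G' *ᵥ (h' *ᵥ z)) =
        Sum.elim (gᵀ *ᵥ ((hᵀ * G * h) *ᵥ y)) ((h'ᵀ * G' * h') *ᵥ z) := by
      rw [Matrix.fromBlocks_transpose, Matrix.fromBlocks_mulVec]
      simp [Matrix.transpose_mul, Matrix.mulVec_mulVec, Matrix.mul_assoc]
    rw [e1, e2] at hx1
    have k1 : ∀ i, (g⁻¹ *ᵥ y) i ∈ IP P := by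
      refine hx y (fun i => hx1 (Sum.inl i)) fun e => ?_
      have h3 := hx2 e
      rw [← dot_basis, ← h3]
      congr 1
      rw [Matrix.fromBlocks_mulVec]
      simp
    have k2 : ∀ i, z i ∈ IP P := by
      intro i
      rw [← hO]
      refine inv_mem O (h'ᵀ * G' * h') ?_ z (fun i => ?_) i
      · rw [hO]; exact hG'
      · have h3 := hx1 (Sum.inr i)
        rw [← hO] at h3
        exact h3
    have e3 : (Matrix.fromBlocks (h * g) 0 0 h')⁻¹ =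
        Matrix.fromBlocks (g⁻¹ * h⁻¹) 0 0 h'⁻¹ := by
      apply Matrix.inv_eq_left_inv
      rw [Matrix.fromBlocks_multiply]
      have e4 : g⁻¹ * h⁻¹ * (h * g) = 1 := by
        rw [Matrix.mul_assoc, ← Matrix.mul_assoc h⁻¹, Matrix.nonsing_inv_mul _ hhu,
          Matrix.one_mul, Matrix.nonsing_inv_mul _ hg.isUnit]
      simp only [Matrix.zero_mul, Matrix.mul_zero, add_zero, zero_add, e4,
        Matrix.nonsing_inv_mul _ hh'.isUnit, Matrix.fromBlocks_one]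
    have e5 : (Matrix.fromBlocks (h * g) 0 0 h')⁻¹ *ᵥ Sum.elim (h *ᵥ y) (h' *ᵥ z) =
        Sum.elim (g⁻¹ *ᵥ y) z := by
      rw [e3, Matrix.fromBlocks_mulVec]
      have e6 : (g⁻¹ * h⁻¹) *ᵥ (h *ᵥ y) = g⁻¹ *ᵥ y := by
        rw [Matrix.mulVec_mulVec, Matrix.mul_assoc, Matrix.nonsing_inv_mul _ hhu, Matrix.mul_one]
      have e7 : h'⁻¹ *ᵥ (h' *ᵥ z) = z := by
        rw [Matrix.mulVec_mulVec, Matrix.nonsing_inv_mul _ hh'.isUnit, Matrix.one_mulVec]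
      simp [e6, e7]
    rw [e5]
    rintro (i | i)
    · exact k1 i
    · exact k2 i
  · rw [hδ]
    congr 2
    ext e e'
    show ρ _ = ρ _
    rw [← dot_basis]
    congr 1
    rw [Matrix.fromBlocks_mulVec]
    simp

end Pool.T1
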